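import Pool.Agent.H87.EBK.Stmts3

/-!
# Board `ebt`, row LOWW
-/

set_option autoImplicit false

namespace Pool.EBK

private theorem loww_mul {x y : ℚ} (hx : x ≠ 0) (hy : y ≠ 0) : v (x * y) = v x + v y :=
  padicValRat.mul hx hy

private theorem loww_div {x y : ℚ} (hx : x ≠ 0) (hy : y ≠ 0) : v (x / y) = v x - v y :=
  padicValRat.div hx hy

private theorem loww_sq {x : ℚ} (hx : x ≠ 0) : v (x ^ 2) = 2 * v x := by
  rw [sq, loww_mul hx hx, two_mul]

private theorem loww_v {a c u : ℚ} (ha : 0 < a) (hc : 0 < c) (hu : 0 < u)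
    (h : a ^ 2 + c ^ 2 = u ^ 2) (hac : v c < v a) : v u = v c := by
  have h1 : v (a ^ 2) = 2 * v a := loww_sq ha.ne'
  have h2 : v (c ^ 2) = 2 * v c := loww_sq hc.ne'
  have h3 : v (u ^ 2) = 2 * v u := loww_sq hu.ne'
  have h4 : v (a ^ 2 + c ^ 2) = min (v (a ^ 2)) (v (c ^ 2)) := by
    apply padicValRat.add_eq_min
    · positivity
    · positivity
    · positivity
    · change v (a ^ 2) ≠ v (c ^ 2)
      rw [h1, h2]
      omega
  rw [h, h3, h1, h2] at h4
  omega

theorem loww : LOWW := by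
  rintro a b c ha hb ⟨hc, ⟨u0, hu0⟩, ⟨w0, hw0⟩⟩ h1 h2
  have hu : (|u0|) ^ 2 = a ^ 2 + c ^ 2 := by
    rw [sq_abs, hu0, sq]
  have hw : (|w0|) ^ 2 = b ^ 2 + c ^ 2 := by
    rw [sq_abs, hw0, sq]
  have hup : 0 < |u0| := by
    rw [abs_pos]
    rintro rfl
    have : 0 < a ^ 2 + c ^ 2 := by positivity
    rw [hu0] at this
    simp at this
  have hwp : 0 < |w0| := by
    rw [abs_pos]
    rintro rfl
    have : 0 < b ^ 2 + c ^ 2 := by positivity
    rw [hw0] at this
    simp at this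
  generalize |u0| = u at hu hup
  generalize |w0| = w at hw hwp
  have hc4 : v (c ^ 4) = 4 * v c := by
    unfold v
    rw [padicValRat.pow]
    norm_num
  have hab2 : v (a ^ 2 * b ^ 2) = 2 * v a + 2 * v b := by
    unfold v
    rw [padicValRat.mul (by positivity) (by positivity), padicValRat.pow, padicValRat.pow]
    norm_num
  have hlt : v (c ^ 4) < v (-(a ^ 2 * b ^ 2)) := by
    have : v (-(a ^ 2 * b ^ 2)) = v (a ^ 2 * b ^ 2) := by
      unfold v
      exact padicValRat.neg _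
    rw [this, hc4, hab2]
    omega
  have hne' : c ^ 4 + -(a ^ 2 * b ^ 2) ≠ 0 := by
    intro h0
    have h3 : -(a ^ 2 * b ^ 2) = -(c ^ 4) := by linarith
    rw [h3] at hlt
    unfold v at hlt
    rw [padicValRat.neg] at hlt
    exact lt_irrefl _ hlt
  have h4 : v (c ^ 4 - a ^ 2 * b ^ 2) = 4 * v c := by
    rw [sub_eq_add_neg, ← hc4]
    unfold v at hlt ⊢
    exact padicValRat.add_eq_of_lt hne' (by positivity) (neg_ne_zero.mpr (by positivity)) hlt
  have hne : c ^ 4 - a ^ 2 * b ^ 2 ≠ 0 := by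
    rw [sub_eq_add_neg]
    exact hne'
  have hden : 0 < 2 * c * u * w := by positivity
  refine ⟨|c ^ 4 - a ^ 2 * b ^ 2| / (2 * c * u * w), ⟨div_pos (abs_pos.mpr hne) hden,
    ⟨(c ^ 4 + 2 * c ^ 2 * a ^ 2 + a ^ 2 * b ^ 2) / (2 * c * u * w), ?_⟩,
    ⟨(c ^ 4 + 2 * c ^ 2 * b ^ 2 + a ^ 2 * b ^ 2) / (2 * c * u * w), ?_⟩⟩, ?_⟩
  · rw [div_pow, sq_abs, div_mul_div_comm, ← sq (2 * c * u * w)]
    rw [eq_div_iff (by positivity), add_mul, div_mul_cancel₀ _ (by positivity)]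
    have h1 : (2 * c * u * w) ^ 2 = 4 * c ^ 2 * (a ^ 2 + c ^ 2) * (b ^ 2 + c ^ 2) := by
      rw [← hu, ← hw]
      ring
    rw [h1]
    ring
  · rw [div_pow, sq_abs, div_mul_div_comm, ← sq (2 * c * u * w)]
    rw [eq_div_iff (by positivity), add_mul, div_mul_cancel₀ _ (by positivity)]
    have h1 : (2 * c * u * w) ^ 2 = 4 * c ^ 2 * (a ^ 2 + c ^ 2) * (b ^ 2 + c ^ 2) := by
      rw [← hu, ← hw]
      ring
    rw [h1]
    ring
  · have habs : v (|c ^ 4 - a ^ 2 * b ^ 2|) = v (c ^ 4 - a ^ 2 * b ^ 2) := by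
      rcases abs_choice (c ^ 4 - a ^ 2 * b ^ 2) with h | h
      · rw [h]
      · rw [h]
        exact padicValRat.neg _
    have h22 : v (2 : ℚ) = 1 := by
      have := padicValRat.self (p := 2) (by norm_num)
      exact_mod_cast this
    have hvu : v u = v c := loww_v ha hc hup hu.symm h1
    have hvw : v w = v c := loww_v hb hc hwp hw.symm h2
    have h3 : v (2 * c * u * w) = 1 + v c + v u + v w := by
      rw [loww_mul (by positivity) hwp.ne', loww_mul (by positivity) hup.ne',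
        loww_mul (by norm_num) hc.ne']
      rw [h22]
    rw [loww_div (abs_pos.mpr hne).ne' hden.ne', habs, h3, hvu, hvw, h4]
    ring

end Pool.EBK
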